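import Pool.Agent.L7h71.GB.Stm2
import Pool.Agent.L7h47.UC.Foc

set_option autoImplicit false

/-!
# Project GB: assembly of the theorem on first-order theories
-/

namespace Pool.Agent.L7h71.GB

open Set Function MeasureTheory FirstOrder FirstOrder.Language
open Pool.Agent.H533R2.VO (RS RIso Dich)
open Pool.Agent.L7h66.UA (XS XIso XYo XDich)
open Pool.Agent.L7h71.UN (IsEU)
open Pool.Agent.W889.FO (VaughtF)
open Pool.Agent.W889.FO.St0 (RF LF gr W D fun_iff)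
open Pool.Agent.R617.VT

theorem dich_of {a : ℕ → ℕ} {B : Set (RS a)} (h : XDich (a := a) (K := fun _ => Bool) B) :
    Dich B := by
  rcases h with ⟨C, hC, h⟩ | ⟨g, h1, h2, h3⟩
  · left
    rcases C.eq_empty_or_nonempty with rfl | hne
    · refine ⟨fun _ _ _ => false, fun x hx => ?_⟩
      obtain ⟨N, hN, -⟩ := h x hx
      exact hN.elim
    · obtain ⟨f, rfl⟩ := hC.exists_eq_range hne
      refine ⟨f, fun x hx => ?_⟩
      obtain ⟨_, ⟨n, rfl⟩, hn⟩ := h x hx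
      exact ⟨n, hn⟩
  · exact Or.inr ⟨g, h1, h2, h3⟩

section

variable {L : FirstOrder.Language.{0, 0}} {e : (Σ n, (LF L).Relations n) → ℕ} (he : Injective e)

include he in
theorem rel_emb {N y : RS (ar e)} {ε : ℕ → ℕ} {b : Set ℕ}
    (h : Emb (a := ar e) (K := fun _ => Bool) N y ε b) {n : ℕ} (R : (LF L).Relations n)
    (v : Fin n → ℕ) (hv : ∀ j, v j ∈ b) :
    (@Structure.RelMap (LF L) ℕ (dc he y) n R (ε ∘ v) ↔
      @Structure.RelMap (LF L) ℕ (dc he N) n R v) := by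
  rw [rel_dc, rel_dc, ← h.2 _ _ fun j => hv _]
  exact Iff.rfl

theorem gr_emb {N y : RS (ar e)} {ε : ℕ → ℕ} {b : Set ℕ}
    (h : Emb (a := ar e) (K := fun _ => Bool) N y ε b) {n : ℕ} (F : L.Functions n)
    (v : Fin n → ℕ) (hv : ∀ j, v j ∈ b) (p : ℕ) (hp : p ∈ b) :
    (gr (dc he y) F (ε ∘ v) (ε p) ↔ gr (dc he N) F v p) := by
  have h1 := rel_emb he h (RF.fn F) (Fin.snoc (α := fun _ => ℕ) v p) (by
    intro j
    refine Fin.lastCases ?_ (fun j' => ?_) j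
    · rw [Fin.snoc_last]
      exact hp
    · rw [Fin.snoc_castSucc]
      exact hv j')
  unfold gr
  rw [← h1]
  have h2 : (Fin.snoc (α := fun _ => ℕ) (ε ∘ v) (ε p) : Fin (n + 1) → ℕ) =
      ε ∘ Fin.snoc (α := fun _ => ℕ) v p := by
    rw [Fin.comp_snoc]
  rw [h2]

end

theorem s_FOG (hG : S_GBT) (hE : S_FOE) (hM : S_FOM) : S_FOG := by
  classical
  intro L hc T₁ T₂ h1 h2 hfin hloc
  obtain ⟨T', hT'⟩ := Pool.Agent.W889.FO.St0.ax_theory (T₁ ∪ T₂)
  refine Pool.Agent.L7h47.UC.red (T₁ ∪ T₂) T' hT' ?_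
  have hcR : Countable (Σ n, (LF L).Relations n) := Pool.Agent.W889.FO.St0.countable_LF
  obtain ⟨e, he⟩ := Countable.exists_injective_nat (Σ n, (LF L).Relations n)
  obtain ⟨𝓖, h𝓖, hGd⟩ := hM L hc T₁ e he
  refine vaught_of he (dich_of ?_)
  have hPB : PolishSpace Bool := by
    have : TopologicalSpace.IsCompletelyMetrizableSpace Bool := inferInstance
    exact {}
  have i5 : ∀ i, BorelSpace ((Fin (ar e i) → ℕ) → Bool) := fun i => inferInstance
  have i7 : BorelSpace (XS (ar e) (fun _ => Bool) ℕ) :=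
    inferInstanceAs (BorelSpace (∀ i, (Fin (ar e i) → ℕ) → Bool))
  have i8 : PolishSpace (XS (ar e) (fun _ => Bool) ℕ) :=
    inferInstanceAs (PolishSpace (∀ i, (Fin (ar e i) → ℕ) → Bool))
  have hmeas : @MeasurableSet (XS (ar e) (fun _ => Bool) ℕ) _ (Md he T') := md_meas he T'
  refine hG (ar e) (fun _ => Bool) 𝓖 h𝓖 (Md he T') hmeas.analyticSet
    (fun x hx y h => md_iso he h hx) ?_ ?_
  · rintro y ⟨-, hy⟩
    obtain ⟨hW, hD⟩ := (hT' _).1 hy
    have hl := hloc _ hD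
    have h3 := (hGd y).1 hW
    refine ⟨fun b c hb hc' => ?_, fun b c hb hc' hbc => ?_, ?_⟩
    · exact (h3 _).2 (hl.union b c ((h3 _).1 hb) ((h3 _).1 hc'))
    · exact (h3 _).2 (hl.inter b c ((h3 _).1 hb) ((h3 _).1 hc') hbc)
    · obtain ⟨n, hn⟩ := hl.bdd
      refine ⟨n, fun x => ?_⟩
      obtain ⟨b, hb1, hb2, hb3⟩ := hn x
      exact ⟨b, (h3 b).2 hb1, hb2, hb3⟩
  · rintro y ⟨hy1, hy⟩
    obtain ⟨hW, hD⟩ := (hT' _).1 hy
    obtain ⟨F, hF⟩ := hE L T₁ T₂ h1 h2 hfin (D (dc he y)) hD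
    refine ⟨F, fun N hN => ?_⟩
    have hWN : W (dc he N) := by
      constructor
      · rintro ⟨n, f⟩ v
        obtain ⟨X', h3, -, h4, -⟩ := hN (Finset.univ.image v)
        obtain ⟨p, -, hp⟩ := (hGd N).2 X' h4 n f v fun j =>
          h3 (Finset.mem_image_of_mem _ (Finset.mem_univ j))
        exact ⟨p, hp⟩
      · rintro ⟨n, f⟩ v b b' hb hb'
        obtain ⟨X', h3, -, h4, ε, -, h5⟩ := hN (Finset.univ.image v ∪ {b, b'})
        have hv : ∀ j, v j ∈ (X' : Set ℕ) := fun j => Finset.mem_coe.2 (h3 (Finset.mem_union_left _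
          (Finset.mem_image_of_mem _ (Finset.mem_univ j))))
        have hbX : b ∈ (X' : Set ℕ) := Finset.mem_coe.2 (h3 (Finset.mem_union_right _ (by simp)))
        have hbX' : b' ∈ (X' : Set ℕ) := Finset.mem_coe.2 (h3 (Finset.mem_union_right _ (by simp)))
        exact h5.1 hbX hbX' (hW.un ⟨n, f⟩ _ _ _ ((gr_emb he h5 f v hv b hbX).2 hb)
          ((gr_emb he h5 f v hv b' hbX').2 hb'))
    refine ⟨fun i hi v => ?_, (hT' _).2 ⟨hWN, hF (D (dc he N)) fun X => ?_⟩⟩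
    · obtain ⟨X', h3, -, -, ε, -, h5⟩ := hN (Finset.univ.image v)
      rw [← h5.2 i v fun j => Finset.mem_coe.2 (h3 (Finset.mem_image_of_mem _ (Finset.mem_univ j)))]
      exact hy1 i hi _
    · obtain ⟨X', h3, h3', h4, ε, h6, h5⟩ := hN X
      refine ⟨X', h3, h3', ((hGd N).1 hWN X').1 h4, ε, h6, h5.1, fun n f v hv => ?_,
        fun n R v hv => ?_⟩
      · obtain ⟨p, hp, hp'⟩ := (hGd N).2 X' h4 n f v hv
        have h7 : @Structure.funMap L ℕ (D (dc he N)) n f v = p := (fun_iff hWN f v p).2 hp'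
        rw [h7]
        exact ((fun_iff hW f _ _).2 ((gr_emb he h5 f v hv p (Finset.mem_coe.2 hp)).2 hp')).symm
      · exact rel_emb he h5 (RF.rel R) v hv

end Pool.Agent.L7h71.GB
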