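import Pool.Agent.L7h71.GB.Stm
import Pool.Agent.L7h71.UA.Res2

set_option autoImplicit false

/-!
# Project GB: conjunctions of a `Π₂` sentence and a `Σ₂` sentence of `L_{ω₁ω}`
-/

namespace Pool.Agent.L7h71.GB

open Set Function MeasureTheory
open Pool.Agent.L7h66.UA (XS XIso XYo XDich)
open Pool.Agent.L7h71.UA (QT qt continuous_qt qt_of append_comp)

variable {a : ℕ → ℕ} {K : ℕ → Type}

/-- The matrix of a `Π₂` sentence `⋀_i ∀ x̄ ⋁_j ∃ ȳ Ψ i j`. -/
abbrev Mat (a : ℕ → ℕ) (K : ℕ → Type) (p : ℕ → ℕ) (q : ℕ → ℕ → ℕ) : Type :=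
  ∀ i j, Set (QT a K (p i + q i j))

/-- The structure induced on `b` satisfies `⋀_i ∀ x̄ ⋁_j ∃ ȳ Ψ i j`. -/
def Sub (p : ℕ → ℕ) (q : ℕ → ℕ → ℕ) (Ψ : Mat a K p q) (M : XS a K ℕ) (b : Set ℕ) : Prop :=
  ∀ (i : ℕ) (x : Fin (p i) → ℕ), (∀ c, x c ∈ b) → ∃ (j : ℕ) (y : Fin (q i j) → ℕ),
    (∀ c, y c ∈ b) ∧ qt M (Fin.append x y) ∈ Ψ i j

/-- The type of a tuple in a finite structure. -/
def qtf {n : ℕ} (s : ∀ i, (Fin (a i) → Fin n) → K i) {m : ℕ} (x : Fin m → Fin n) : QT a K m :=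
  (fun i t => s i (x ∘ t), fun p q => decide (x p = x q))

/-- The finite models. -/
def FamM (p : ℕ → ℕ) (q : ℕ → ℕ → ℕ) (Ψ : Mat a K p q) : FamG a K := fun n =>
  {s | ∀ (i : ℕ) (x : Fin (p i) → Fin n), ∃ (j : ℕ) (y : Fin (q i j) → Fin n),
    qtf s (Fin.append x y) ∈ Ψ i j}

theorem append_comp' {V W : Type} {k l : ℕ} (e : V → W) (u : Fin k → V) (v : Fin l → V) :
    e ∘ Fin.append u v = Fin.append (e ∘ u) (e ∘ v) := by
  funext j
  refine Fin.addCases (fun i => ?_) (fun i => ?_) j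
  · simp only [comp_apply, Fin.append_left]
  · simp only [comp_apply, Fin.append_right]

theorem qtf_eq {M : XS a K ℕ} {n : ℕ} {w : Fin n → ℕ} (hw : Injective w) {m : ℕ}
    (x : Fin m → Fin n) : qtf (fun i t => M i (w ∘ t)) x = qt M (w ∘ x) := by
  refine Prod.ext rfl ?_
  funext i j
  show decide (x i = x j) = decide (w (x i) = w (x j))
  simp only [hw.eq_iff]

theorem gd_iff (p : ℕ → ℕ) (q : ℕ → ℕ → ℕ) (Ψ : Mat a K p q) (M : XS a K ℕ) (b : Finset ℕ) :
    Gd (FamM p q Ψ) M b ↔ Sub p q Ψ M b := by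
  classical
  constructor
  · rintro ⟨w, hw, hwb, hs⟩ i x hx
    have hsurj : ∀ z ∈ b, ∃ c, w c = z := by
      have h1 : Finset.univ.image w = b := by
        refine Finset.eq_of_subset_of_card_le ?_ ?_
        · intro z hz
          obtain ⟨c, -, rfl⟩ := Finset.mem_image.1 hz
          exact hwb c
        · rw [Finset.card_image_of_injective _ hw, Finset.card_univ, Fintype.card_fin]
      intro z hz
      rw [← h1] at hz
      obtain ⟨c, -, hc⟩ := Finset.mem_image.1 hz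
      exact ⟨c, hc⟩
    choose x' hx' using fun c => hsurj (x c) (Finset.mem_coe.1 (hx c))
    obtain ⟨j, y, hy⟩ := hs i x'
    refine ⟨j, w ∘ y, fun c => Finset.mem_coe.2 (hwb _), ?_⟩
    rw [qtf_eq hw, append_comp'] at hy
    have h2 : w ∘ x' = x := funext hx'
    rwa [h2] at hy
  · intro h
    let w : Fin b.card → ℕ := fun c => (b.equivFin.symm c : ℕ)
    have hw : Injective w := fun c d hcd => b.equivFin.symm.injective (Subtype.ext hcd)
    refine ⟨w, hw, fun c => (b.equivFin.symm c).2, fun i x => ?_⟩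
    obtain ⟨j, y, hyb, hy⟩ := h i (w ∘ x) fun c => Finset.mem_coe.2 (b.equivFin.symm (x c)).2
    refine ⟨j, fun c => b.equivFin ⟨y c, Finset.mem_coe.1 (hyb c)⟩, ?_⟩
    rw [qtf_eq hw, append_comp']
    have h2 : (w ∘ fun c => b.equivFin ⟨y c, Finset.mem_coe.1 (hyb c)⟩) = y := by
      funext c
      show ((b.equivFin.symm (b.equivFin ⟨y c, _⟩) : b) : ℕ) = y c
      rw [Equiv.symm_apply_apply]
    rw [h2]
    exact hy

theorem analytic_inter {X : Type} [TopologicalSpace X] [T2Space X] {A B : Set X}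
    (hA : AnalyticSet A) (hB : AnalyticSet B) : AnalyticSet (A ∩ B) := by
  have h1 : A ∩ B = ⋂ b : Bool, cond b A B := by
    ext x
    simp only [mem_inter_iff, mem_iInter, Bool.forall_bool, cond_true, cond_false]
    exact and_comm
  rw [h1]
  refine AnalyticSet.iInter fun b => ?_
  cases b
  · exact hB
  · exact hA

/-- The dichotomy for `Π₂ ∧ Σ₂` sentences. -/
theorem pi_sigma (hG : S_GBT) (a : ℕ → ℕ) (K : ℕ → Type) [∀ i, TopologicalSpace (K i)]
    [∀ i, PolishSpace (K i)] (p : ℕ → ℕ) (q : ℕ → ℕ → ℕ) (Ψ : Mat a K p q)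
    (hΨ : ∀ i j, @MeasurableSet _ (borel (QT a K (p i + q i j))) (Ψ i j))
    (k : ℕ → ℕ) (l : ℕ → ℕ → ℕ)
    (Q : ∀ i j, Set (QT a K (k i + l i j))) (hQ : ∀ i j, AnalyticSet (Q i j))
    (hfine : ∀ M : XS a K ℕ, Sub p q Ψ M univ →
      (∃ (i : ℕ) (u : Fin (k i) → ℕ), ∀ (j : ℕ) (v : Fin (l i j) → ℕ),
        qt M (Fin.append u v) ∈ Q i j) →
      (∀ b c : Finset ℕ, Sub p q Ψ M b → Sub p q Ψ M c → Sub p q Ψ M ↑(b ∪ c)) ∧
      (∀ b c : Finset ℕ, Sub p q Ψ M b → Sub p q Ψ M c → (b ∩ c).Nonempty →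
        Sub p q Ψ M ↑(b ∩ c)) ∧
      ∃ n : ℕ, ∀ x, ∃ b : Finset ℕ, Sub p q Ψ M b ∧ x ∈ b ∧ b.card ≤ n) :
    XDich {M : XS a K ℕ | Sub p q Ψ M univ ∧
      ∃ (i : ℕ) (u : Fin (k i) → ℕ), ∀ (j : ℕ) (v : Fin (l i j) → ℕ),
        qt M (Fin.append u v) ∈ Q i j} := by
  classical
  let _ : ∀ i, MeasurableSpace (K i) := fun i => borel (K i)
  have hb : ∀ i, BorelSpace (K i) := fun i => ⟨rfl⟩
  have i5 : ∀ i, BorelSpace ((Fin (a i) → ℕ) → K i) := fun i => inferInstance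
  have i6 : ∀ i, SecondCountableTopology ((Fin (a i) → ℕ) → K i) := fun i => inferInstance
  have i7 : BorelSpace (XS a K ℕ) := inferInstanceAs (BorelSpace (∀ i, (Fin (a i) → ℕ) → K i))
  have i4 : ∀ i, TopologicalSpace.IsCompletelyMetrizableSpace ((Fin (a i) → ℕ) → K i) :=
    fun i => inferInstance
  have i8 : TopologicalSpace.IsCompletelyMetrizableSpace (XS a K ℕ) :=
    inferInstanceAs (TopologicalSpace.IsCompletelyMetrizableSpace (∀ i, (Fin (a i) → ℕ) → K i))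
  have i9 : SecondCountableTopology (XS a K ℕ) :=
    inferInstanceAs (SecondCountableTopology (∀ i, (Fin (a i) → ℕ) → K i))
  have i10 : PolishSpace (XS a K ℕ) := {}
  have hm1 : ∀ (m : ℕ) (x : Fin m → ℕ),
      @Measurable _ _ _ (borel (QT a K m)) fun M : XS a K ℕ => qt M x := by
    intro m x
    let _ : MeasurableSpace (QT a K m) := borel _
    have : BorelSpace (QT a K m) := ⟨rfl⟩
    exact (continuous_qt x).measurable
  have hm2 : ∀ (n m : ℕ) (x : Fin m → Fin n),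
      @Measurable _ _ _ (borel (QT a K m)) fun s : (∀ i, (Fin (a i) → Fin n) → K i) => qtf s x := by
    intro n m x
    let _ : MeasurableSpace (QT a K m) := borel _
    have : BorelSpace (QT a K m) := ⟨rfl⟩
    have h5 : ∀ i, BorelSpace ((Fin (a i) → Fin n) → K i) := fun i => inferInstance
    have h6 : ∀ i, SecondCountableTopology ((Fin (a i) → Fin n) → K i) := fun i => inferInstance
    have h7 : BorelSpace (∀ i, (Fin (a i) → Fin n) → K i) := inferInstance
    have hc : Continuous fun s : (∀ i, (Fin (a i) → Fin n) → K i) => qtf s x :=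
      (continuous_pi fun i => continuous_pi fun t => (continuous_apply (x ∘ t)).comp
        (continuous_apply i)).prodMk continuous_const
    exact hc.measurable
  have h𝓖 : ∀ n, MeasurableSet (FamM p q Ψ n) := by
    intro n
    have h1 : FamM p q Ψ n = ⋂ (i : ℕ), ⋂ (x : Fin (p i) → Fin n), ⋃ (j : ℕ),
        ⋃ (y : Fin (q i j) → Fin n), (fun s => qtf s (Fin.append x y)) ⁻¹' Ψ i j := by
      ext s
      simp only [mem_iInter, mem_iUnion, mem_preimage]
      exact Iff.rfl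
    rw [h1]
    refine MeasurableSet.iInter fun i => MeasurableSet.iInter fun x => MeasurableSet.iUnion fun j =>
      MeasurableSet.iUnion fun y => ?_
    exact @hm2 n _ (Fin.append x y) _ (hΨ i j)
  refine hG a K (FamM p q Ψ) h𝓖 _ ?_ ?_ ?_ ?_
  · have h1 : {M : XS a K ℕ | Sub p q Ψ M univ ∧
        ∃ (i : ℕ) (u : Fin (k i) → ℕ), ∀ (j : ℕ) (v : Fin (l i j) → ℕ),
          qt M (Fin.append u v) ∈ Q i j} =
        {M | Sub p q Ψ M univ} ∩ ⋃ (r : Σ i, Fin (k i) → ℕ), ⋂ (w : Σ j, Fin (l r.1 j) → ℕ),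
            (fun M : XS a K ℕ => qt M (Fin.append r.2 w.2)) ⁻¹' Q r.1 w.1 := by
      ext M
      simp only [mem_inter_iff, mem_iUnion, mem_iInter, mem_preimage]
      exact ⟨fun ⟨h, i, u, h'⟩ => ⟨h, ⟨i, u⟩, fun w => h' w.1 w.2⟩,
        fun ⟨h, r, h'⟩ => ⟨h, r.1, r.2, fun j v => h' ⟨j, v⟩⟩⟩
    rw [h1]
    have h2 : MeasurableSet {M : XS a K ℕ | Sub p q Ψ M univ} := by
      have h3 : {M : XS a K ℕ | Sub p q Ψ M univ} = ⋂ (i : ℕ), ⋂ (x : Fin (p i) → ℕ), ⋃ (j : ℕ),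
          ⋃ (y : Fin (q i j) → ℕ), (fun M => qt M (Fin.append x y)) ⁻¹' Ψ i j := by
        ext M
        simp only [mem_iInter, mem_iUnion, mem_preimage]
        constructor
        · intro h i x
          obtain ⟨j, y, -, hy⟩ := h i x fun c => mem_univ _
          exact ⟨j, y, hy⟩
        · intro h i x _
          obtain ⟨j, y, hy⟩ := h i x
          exact ⟨j, y, fun c => mem_univ _, hy⟩
      rw [h3]
      refine MeasurableSet.iInter fun i => MeasurableSet.iInter fun x => MeasurableSet.iUnion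
        fun j => MeasurableSet.iUnion fun y => ?_
      exact @hm1 _ (Fin.append x y) _ (hΨ i j)
    refine analytic_inter h2.analyticSet (AnalyticSet.iUnion fun r => ?_)
    by_cases hne : Nonempty (Σ j, Fin (l r.1 j) → ℕ)
    · refine AnalyticSet.iInter fun w => ?_
      exact (hQ r.1 w.1).preimage (continuous_qt _)
    · exact absurd ⟨⟨0, fun _ => 0⟩⟩ hne
  · rintro M ⟨h, i, u, h'⟩ N ⟨e, he⟩
    have key : ∀ {m : ℕ} (x : Fin m → ℕ), qt N (e ∘ x) = qt M x := fun x =>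
      qt_of e.injective.injOn fun i' x _ => he i' x
    refine ⟨fun i x _ => ?_, i, e ∘ u, fun j v => ?_⟩
    · obtain ⟨j, y, -, hy⟩ := h i (e.symm ∘ x) fun c => mem_univ _
      refine ⟨j, e ∘ y, fun c => mem_univ _, ?_⟩
      rw [← key, append_comp'] at hy
      have h2 : (⇑e ∘ ⇑e.symm ∘ x) = x := by
        funext c
        exact e.apply_symm_apply _
      rwa [h2] at hy
    · have h2 := h' j (e.symm ∘ v)
      rw [← key, append_comp'] at h2
      have h3 : (⇑e ∘ ⇑e.symm ∘ v) = v := by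
        funext c
        exact e.apply_symm_apply _
      rwa [h3] at h2
  · rintro M ⟨h, h'⟩
    obtain ⟨f1, f2, f3⟩ := hfine M h h'
    exact ⟨fun b c hb hc => (gd_iff p q Ψ M _).2 (f1 b c ((gd_iff p q Ψ M _).1 hb)
        ((gd_iff p q Ψ M _).1 hc)),
      fun b c hb hc hbc => (gd_iff p q Ψ M _).2 (f2 b c ((gd_iff p q Ψ M _).1 hb)
        ((gd_iff p q Ψ M _).1 hc) hbc),
      f3.imp fun n hn x => (hn x).imp fun b hb => ⟨(gd_iff p q Ψ M _).2 hb.1, hb.2⟩⟩
  · rintro M ⟨-, i, u, h'⟩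
    refine ⟨Finset.univ.image u, fun N hN => ⟨fun i' x _ => ?_, i, u, fun j v => ?_⟩⟩
    · obtain ⟨X', h1, -, h3, -⟩ := hN (Finset.univ.image x)
      obtain ⟨j, y, -, hy⟩ := (gd_iff p q Ψ N _).1 h3 i' x fun c =>
        Finset.mem_coe.2 (h1 (Finset.mem_image_of_mem _ (Finset.mem_univ c)))
      exact ⟨j, y, fun c => mem_univ _, hy⟩
    · obtain ⟨X', h1, h2, -, e, h3, h4⟩ := hN (Finset.univ.image (Fin.append u v))
      have hsub : range (Fin.append u v) ⊆ (X' : Set ℕ) := by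
        rintro _ ⟨c, rfl⟩
        exact Finset.mem_coe.2 (h1 (Finset.mem_image_of_mem _ (Finset.mem_univ c)))
      have h5 : qt M (e ∘ Fin.append u v) = qt N (Fin.append u v) :=
        qt_of (h4.1.mono hsub) fun i' x hx => h4.2 i' x fun j' => hsub (hx j')
      rw [← h5, append_comp]
      have h6 : e ∘ u = u := funext fun c => h3 _ (Finset.mem_image_of_mem _ (Finset.mem_univ c))
      rw [h6]
      exact h' j _

end Pool.Agent.L7h71.GB
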