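import Pool.Agent.L7h71.GB.Asm
import Pool.Agent.L7h71.GB.Fog
import Pool.Agent.L7h71.GB.Sig2
import Pool.Agent.L7h95.GB.Yng
import Pool.Agent.L7h42.GB.Fix
import Pool.Agent.L7h96.GB.Gdl
import Pool.Agent.L7h96.GB.Fth
import Pool.Agent.L7h75.GB.Lim
import Pool.Agent.L7h75.GB.Tau
import Pool.Agent.L7h76.GB.Cex
import Pool.Agent.L7h76.GB.Uni
import Pool.Agent.L7h6.GBV.Mta
import Pool.Agent.L7h6.GBV.Mpr
import Pool.Agent.L7h44.GB.Foe
import Pool.Agent.L7h44.GB.Fom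

set_option autoImplicit false

/-!
# Project GB: all parts together
-/

namespace Pool.Agent.L7h71.GB

theorem tau' : S_TAU := L7h75.GB.s_TAU

theorem gdl : S_GDL := L7h96.GB.s_GDL

theorem gbt : S_GBT :=
  s_GBT L7h76.GB.s_CEX (L7h76.GB.s_UNI tau' gdl) (L7h96.GB.s_FTH tau')
    (L7h95.GB.s_YNG tau' gdl L7h75.GB.s_LIM L7h42.GB.s_FIX)
    (L7h6.GBV.s_MPR L7h6.GBV.s_MTA gdl)

theorem fog : S_FOG := s_FOG gbt L7h44.GB.s_FOE L7h44.GB.s_FOM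

end Pool.Agent.L7h71.GB
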