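import Pool.Agent.L7h71.GB.Stm
import Pool.Agent.L7h71.UA.Res2
import Pool.Agent.H565R2.FO2.USec

set_option autoImplicit false

/-!
# Project GB: assembly of the abstract theorem
-/

namespace Pool.Agent.L7h71.GB

open Set Function MeasureTheory
open Pool.Agent.L7h66.UA (XS XIso XYo XDich)

variable {a : ℕ → ℕ} {K : ℕ → Type}

theorem xiso_symm {V W : Type} {M : XS a K V} {N : XS a K W} (h : XIso M N) : XIso N M := by
  obtain ⟨e, he⟩ := h
  refine ⟨e.symm, fun i x => ?_⟩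
  rw [← he i (e.symm ∘ x)]
  congr 1
  funext j
  exact e.apply_symm_apply _

theorem xiso_trans {V W Z : Type} {M : XS a K V} {N : XS a K W} {P : XS a K Z} (h : XIso M N)
    (h' : XIso N P) : XIso M P := by
  obtain ⟨e, he⟩ := h
  obtain ⟨e', he'⟩ := h'
  refine ⟨e.trans e', fun i x => ?_⟩
  rw [← he, ← he']
  rfl

theorem Pres.comp {𝓖 : FamG a K} {M : XS a K ℕ} {ρ : ℕ → ℕ} (h : Pres 𝓖 M ρ)
    (π : Equiv.Perm ℕ) : Pres 𝓖 M (ρ ∘ π) where
  nodup i := h.nodup _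
  prime i := h.prime _
  anti i j hij := π.injective (h.anti _ _ hij)
  cover x := by
    obtain ⟨i, hi⟩ := h.cover x
    exact ⟨π.symm i, by simpa using hi⟩

theorem s_GBT (hC : S_CEX) (hU : S_UNI) (hF : S_FTH) (hY : S_YNG) (hP : S_MPR) : S_GBT := by
  classical
  intro a K _ _ _ _ 𝓖 h𝓖 B hB hiso hfine hloc
  have iK : ∀ i, StandardBorelSpace (K i) := fun i => inferInstance
  have i5 : ∀ i, BorelSpace ((Fin (a i) → ℕ) → K i) := fun i => inferInstance
  have i6 : ∀ i, SecondCountableTopology ((Fin (a i) → ℕ) → K i) := fun i => inferInstance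
  have i7 : BorelSpace (XS a K ℕ) := inferInstanceAs (BorelSpace (∀ i, (Fin (a i) → ℕ) → K i))
  have i9 : SecondCountableTopology (XS a K ℕ) :=
    inferInstanceAs (SecondCountableTopology (∀ i, (Fin (a i) → ℕ) → K i))
  have j5 : ∀ m : ℕ, BorelSpace ((Fin (m + 1) → ℕ) → ℝ) := fun i => inferInstance
  have j6 : ∀ m : ℕ, SecondCountableTopology ((Fin (m + 1) → ℕ) → ℝ) := fun i => inferInstance
  have j7 : BorelSpace (XS (fun m => m + 1) (fun _ => ℝ) ℕ) :=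
    inferInstanceAs (BorelSpace (∀ m : ℕ, (Fin (m + 1) → ℕ) → ℝ))
  have j9 : SecondCountableTopology (XS (fun m => m + 1) (fun _ => ℝ) ℕ) :=
    inferInstanceAs (SecondCountableTopology (∀ m : ℕ, (Fin (m + 1) → ℕ) → ℝ))
  rw [AnalyticSet] at hB
  rcases hB with rfl | ⟨f, hf, rfl⟩
  · exact Or.inl ⟨∅, countable_empty, fun M hM => hM.elim⟩
  obtain ⟨hP1, hP2⟩ := hP a K 𝓖 h𝓖
  have hfm : Measurable f := hf.measurable
  have hfp : Measurable fun z : (ℕ → ℕ) × (ℕ → ℕ) => (f z.1, z.2) :=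
    (hfm.comp measurable_fst).prodMk measurable_snd
  -- the codes
  let B' : Set (XS (fun m => m + 1) (fun _ => ℝ) ℕ) :=
    {N' | ∃ z : (ℕ → ℕ) × (ℕ → ℕ), Pres 𝓖 (f z.1) z.2 ∧ cod (f z.1) z.2 = N'}
  have hB' : AnalyticSet B' := by
    have h1 : MeasurableSet {z : (ℕ → ℕ) × (ℕ → ℕ) | Pres 𝓖 (f z.1) z.2} := hfp hP1
    have h2 := hP2.comp hfp
    change Measurable (fun z : (ℕ → ℕ) × (ℕ → ℕ) => cod (f z.1) z.2) at h2
    have h3 := h1.analyticSet_image h2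
    have h4 : B' = (fun z : (ℕ → ℕ) × (ℕ → ℕ) => cod (f z.1) z.2) ''
        {z : (ℕ → ℕ) × (ℕ → ℕ) | Pres 𝓖 (f z.1) z.2} := by
      ext N'
      exact ⟨fun ⟨z, h, h'⟩ => ⟨z, h, h'⟩, fun ⟨z, h, h'⟩ => ⟨z, h, h'⟩⟩
    rw [h4]
    exact h3
  have hiso' : ∀ M ∈ B', ∀ N, XIso M N → N ∈ B' := by
    rintro _ ⟨z, hz, rfl⟩ N ⟨π, hπ⟩
    refine ⟨(z.1, z.2 ∘ π.symm), hz.comp π.symm, ?_⟩
    funext m i
    have h1 := hπ m (π.symm ∘ i)
    have h2 : (⇑π ∘ ⇑π.symm ∘ i) = i := by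
      funext j
      simp
    rw [h2] at h1
    rw [h1]
    rfl
  have hloc' : ∀ M ∈ B', ∃ F : Finset ℕ, ∀ N, XYo F M N → N ∈ B' := by
    rintro _ ⟨z, hz, rfl⟩
    obtain ⟨F, hFz⟩ := hloc (f z.1) (mem_range_self _)
    choose ι hι using hz.cover
    refine ⟨F.image ι, fun N hN => ?_⟩
    obtain ⟨N₁, ρ', h1, h2, h3⟩ := hY a K 𝓖 (f z.1) z.2 (hfine _ (mem_range_self _)).union hz F
      (F.image ι) (fun p hp => ⟨ι p, Finset.mem_image_of_mem _ hp, hι p⟩) N hN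
    obtain ⟨w, hw⟩ := hFz N₁ h3
    exact ⟨(w, ρ'), by simpa [hw] using h1, by simpa [hw] using h2⟩
  rcases Pool.Agent.L7h71.UA.lra' (fun m => m + 1) (fun _ => ℝ) B' hB' hiso' hloc' with
    ⟨C, hCc, hC'⟩ | ⟨g, hg, hgB, hgi⟩
  · -- countable
    left
    let Φ : XS (fun m => m + 1) (fun _ => ℝ) ℕ → XS a K ℕ := fun N =>
      if h : N ∈ B' then f h.choose.1 else f 0
    refine ⟨Φ '' C, hCc.image _, fun M hM => ?_⟩
    obtain ⟨w, rfl⟩ := hM
    obtain ⟨ρ, hρ⟩ := hC a K 𝓖 (f w) (hfine _ (mem_range_self _))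
    obtain ⟨N, hN, hNi⟩ := hC' (cod (f w) ρ) ⟨(w, ρ), hρ, rfl⟩
    have hNB : N ∈ B' := hiso' _ ⟨(w, ρ), hρ, rfl⟩ N (xiso_symm hNi)
    refine ⟨Φ N, mem_image_of_mem _ hN, ?_⟩
    have h1 : Φ N = f hNB.choose.1 := dif_pos hNB
    obtain ⟨h2, h3⟩ := hNB.choose_spec
    rw [h1]
    obtain ⟨π, hπ⟩ := hNi
    -- `cod (f w) ρ ∘ π = N`
    refine hF a K 𝓖 _ _ _ (ρ ∘ π) h2 (hρ.comp π) ?_
    rw [h3]
    funext m i
    rw [← hπ m i]
    rfl
  · -- perfect
    right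
    let S : Set ((ℕ → Bool) × (ℕ → ℕ) × (ℕ → ℕ)) :=
      {z | Pres 𝓖 (f z.2.1) z.2.2 ∧ cod (f z.2.1) z.2.2 = g z.1}
    have hgm : Measurable g := hg.measurable
    have hS : MeasurableSet S := by
      have h1 : MeasurableSet {z : (ℕ → Bool) × (ℕ → ℕ) × (ℕ → ℕ) | Pres 𝓖 (f z.2.1) z.2.2} :=
        (hfp.comp measurable_snd) hP1
      have h0 : Measurable (Prod.snd : (ℕ → Bool) × (ℕ → ℕ) × (ℕ → ℕ) → (ℕ → ℕ) × (ℕ → ℕ)) :=
        measurable_snd
      have h2 := hP2.comp (hfp.comp h0)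
      change Measurable (fun z : (ℕ → Bool) × (ℕ → ℕ) × (ℕ → ℕ) => cod (f z.2.1) z.2.2) at h2
      have h3 : {z : (ℕ → Bool) × (ℕ → ℕ) × (ℕ → ℕ) | cod (f z.2.1) z.2.2 = g z.1} =
          ⋂ (m : ℕ), ⋂ (i : Fin (m + 1) → ℕ), {z | cod (f z.2.1) z.2.2 m i = g z.1 m i} := by
        ext z
        simp only [mem_iInter, mem_setOf_eq]
        exact ⟨fun h m i => by rw [h], fun h => funext fun m => funext fun i => h m i⟩
      refine h1.inter ?_
      change MeasurableSet {z : (ℕ → Bool) × (ℕ → ℕ) × (ℕ → ℕ) | cod (f z.2.1) z.2.2 = g z.1}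
      rw [h3]
      refine MeasurableSet.iInter fun m => MeasurableSet.iInter fun i => ?_
      refine measurableSet_eq_fun ?_ ?_
      · exact (measurable_pi_apply i).comp ((measurable_pi_apply m).comp h2)
      · exact (measurable_pi_apply i).comp ((measurable_pi_apply m).comp
          (hgm.comp measurable_fst))
    have hSb : StandardBorelSpace S := hS.standardBorel
    have hex : ∀ c, ∃ z : S, z.1.1 = c := by
      intro c
      obtain ⟨z, h1, h2⟩ := hgB c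
      exact ⟨⟨(c, z), h1, h2⟩, rfl⟩
    obtain ⟨h, hh1, hh2⟩ := Pool.Agent.H565R2.FO2.perfect_of_uncountable (Y := S)
      (X := XS a K ℕ) (Z := ℕ → Bool) (ι := Unit) (fun z => f z.1.2.1)
      (hfm.comp (measurable_fst.comp (measurable_snd.comp measurable_subtype_coe)))
      (fun _ z => z.1.1) (fun _ => measurable_fst.comp measurable_subtype_coe)
      (fun z z' => XIso (f z.1.2.1) (f z'.1.2.1)) (by
        intro z z' hzz _
        refine ⟨(), hgi _ _ ?_⟩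
        rw [← z.2.2, ← z'.2.2]
        exact hU a K 𝓖 _ _ _ _ z.2.1 z'.2.1 hzz) (by
        intro hc
        have hc' : (univ : Set (ℕ → Bool)).Countable := by
          refine hc.mono fun c _ => ?_
          obtain ⟨z, hz⟩ := hex c
          exact mem_iUnion.2 ⟨(), z, hz⟩
        have h3 : Countable (ℕ → Bool) := countable_univ_iff.1 hc'
        obtain ⟨s, hs⟩ := exists_surjective_nat (ℕ → Bool)
        obtain ⟨n, hn⟩ := hs fun k => !(s k k)
        have h5 := congrFun hn n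
        revert h5
        cases s n n <;> simp)
    refine ⟨fun c => f (h c).1.2.1, hh1, fun c => mem_range_self _, fun c d hcd => ?_⟩
    by_contra hne
    exact hh2 c d hne hcd

end Pool.Agent.L7h71.GB
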