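import Pool.Agent.L7h66.UA.StmY

set_option autoImplicit false

/-!
# Project GB: classes closed under good substructures

`XS a K ℕ` are the structures on `ℕ` with functions `M i : ℕ^(a i) → K i`. A Borel family `𝓖` of finite
structures is given; a finite set `b` is good in `M` if the structure induced on `b` is in `𝓖`.

GOAL (GBT). Let `B` be an analytic isomorphism-invariant class such that for each `M ∈ B`: unions of
two good sets are good, nonempty intersections of two good sets are good, each point is in a good set with at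
most `n` points (`n` may depend on `M`), and there is a finite set `F` such that `B` contains all `N` such that
each finite set is contained in a good set of `N` which contains `F` and embeds in `M` over `F`. Then `B` has
countably many isomorphism types or a Cantor family. (For `𝓖` = all finite structures this is part (1) of
`SigmaTwoSentences`.) In particular (FOG) Vaught's conjecture holds for `∀∃` theories `T₁` (plus
finitely many `∃∀` sentences) in arbitrary countable languages such that for some `n` in every model on `ℕ` each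
point lies in a submodel with at most `n` points, and unions and intersections of finite submodels are submodels.

PLAN. The prime good sets are the smallest good sets containing a point; the maximal ones
are the blocks of `M`. A presentation `ρ` enumerates the blocks. The code `cod M ρ` is the structure on `ℕ` (the
numbers of blocks) whose `m`-th function gives the isomorphism type (a real number `tau`) of the union of
`m + 1` blocks, with the blocks marked. Codes are isomorphic iff the structures are, and the class of all codes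
of members of `B` is closed under younger structures over finite sets; so `Pool.Agent.L7h71.UA.lra'` applies.

Every part is a `def S_XXX : Prop`; a proof is a theorem `s_XXX (hypotheses) : S_XXX` in the file
`Pool/Agent/<folder>/GB/Xxx.lean`, namespace of your own (for instance `Pool.Agent.L7h23.GB`), which
imports this file.
-/

namespace Pool.Agent.L7h71.GB

open Set Function MeasureTheory
open Pool.Agent.L7h66.UA (XS XIso XYo XDich)

variable {a : ℕ → ℕ} {K : ℕ → Type}

/-! ### definitions -/

/-- `e` embeds the structure induced by `M` on `b` in `N`. -/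
def Emb (M N : XS a K ℕ) (e : ℕ → ℕ) (b : Set ℕ) : Prop :=
  InjOn e b ∧ ∀ i (x : Fin (a i) → ℕ), (∀ j, x j ∈ b) → N i (e ∘ x) = M i x

/-- `lst` enumerates all lists. -/
def lst (n : ℕ) : List ℕ := (Encodable.decode n : Option (List ℕ)).getD []

theorem lst_encode (l : List ℕ) : lst (Encodable.encode l) = l := by
  simp [lst]

/-- Entry number `s` of the list `l` (the first entry if `s` is too large). -/
def pt (l : List ℕ) (s : ℕ) : ℕ := l.getD s (l.headD 0)

/-- The space of the diagrams of finite sequences of finite tuples. -/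
abbrev DT (a : ℕ → ℕ) (K : ℕ → Type) : Type := (ℕ → ℕ) × (ℕ → ℕ → Bool) × XS a K ℕ

/-- The diagram of a sequence of lists: the lengths, the equalities between the entries and the values of all
functions at the entries. -/
def dg (M : XS a K ℕ) (ls : List (List ℕ)) : DT a K :=
  (fun s => (ls.map List.length).getD s 0, fun s s' => decide (pt ls.flatten s = pt ls.flatten s'),
    fun i t => M i fun j => pt ls.flatten (t j))

/-- The diagram as a real number. -/
noncomputable def vl [∀ i, MeasurableSpace (K i)] [∀ i, StandardBorelSpace (K i)] (M : XS a K ℕ)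
    (ls : List (List ℕ)) : ℝ := embeddingReal (DT a K) (dg M ls)

/-- The isomorphism type of the structure induced on the union of the lists, the lists being named sets:
the least diagram for all orders of the lists. -/
noncomputable def tau [∀ i, MeasurableSpace (K i)] [∀ i, StandardBorelSpace (K i)] (M : XS a K ℕ)
    (ls : List (List ℕ)) : ℝ := sInf {r | ∃ ls', List.Forall₂ List.Perm ls' ls ∧ vl M ls' = r}

/-- Families of finite structures: `𝓖 n` is a set of structures on `Fin n`. -/
abbrev FamG (a : ℕ → ℕ) (K : ℕ → Type) : Type := ∀ n, Set (∀ i, (Fin (a i) → Fin n) → K i)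

/-- The set `b` is good: the structure induced on `b` by `M` is isomorphic to a member of `𝓖`. -/
def Gd (𝓖 : FamG a K) (M : XS a K ℕ) (b : Finset ℕ) : Prop :=
  ∃ u : Fin b.card → ℕ, Injective u ∧ (∀ j, u j ∈ b) ∧ (fun i t => M i (u ∘ t)) ∈ 𝓖 b.card

/-- `b` is the smallest good set which contains `y`. -/
def Pr (𝓖 : FamG a K) (M : XS a K ℕ) (b : Finset ℕ) (y : ℕ) : Prop :=
  Gd 𝓖 M b ∧ y ∈ b ∧ ∀ c, Gd 𝓖 M c → y ∈ c → b ⊆ c

/-- The conditions for `M`: unions and nonempty intersections of good sets are good, and each point is in a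
good set with at most `n` points. -/
structure Fine (𝓖 : FamG a K) (M : XS a K ℕ) : Prop where
  union : ∀ b c, Gd 𝓖 M b → Gd 𝓖 M c → Gd 𝓖 M (b ∪ c)
  inter : ∀ b c, Gd 𝓖 M b → Gd 𝓖 M c → (b ∩ c).Nonempty → Gd 𝓖 M (b ∩ c)
  bdd : ∃ n : ℕ, ∀ x, ∃ b, Gd 𝓖 M b ∧ x ∈ b ∧ b.card ≤ n

/-- `ρ` is a presentation of `M`: the lists `lst (ρ i)` enumerate the maximal prime good sets. -/
structure Pres (𝓖 : FamG a K) (M : XS a K ℕ) (ρ : ℕ → ℕ) : Prop where
  nodup : ∀ i, (lst (ρ i)).Nodup
  prime : ∀ i, ∃ y, Pr 𝓖 M (lst (ρ i)).toFinset y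
  anti : ∀ i j, (lst (ρ i)).toFinset ⊆ (lst (ρ j)).toFinset → i = j
  cover : ∀ x, ∃ i, x ∈ lst (ρ i)

/-- The code: a structure on the set of the numbers of the blocks, with real values. -/
noncomputable def cod [∀ i, MeasurableSpace (K i)] [∀ i, StandardBorelSpace (K i)] (M : XS a K ℕ)
    (ρ : ℕ → ℕ) : XS (fun m => m + 1) (fun _ => ℝ) ℕ :=
  fun _ i => tau M (List.ofFn fun j => lst (ρ (i j)))

/-- Every finite set is contained in a good set of `N` which contains `F` and embeds in `M` over `F`. -/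
def GYo (𝓖 : FamG a K) (F : Finset ℕ) (M N : XS a K ℕ) : Prop :=
  ∀ X : Finset ℕ, ∃ X' : Finset ℕ, X ⊆ X' ∧ F ⊆ X' ∧ Gd 𝓖 N X' ∧
    ∃ e : ℕ → ℕ, (∀ p ∈ F, e p = p) ∧ Emb N M e X'

/-! ### the parts -/

/-- TAU (150 lines, no hypotheses). `tau` describes isomorphism.

Proof. (→) The set in the definition of `tau` is the image of a finite set, so `tau M ls = vl M ls₁`,
`tau N ls' = vl N ls₂` with `ls₁`, `ls₂` permutations of `ls`, `ls'` list by list. `embeddingReal` is injective, so
`dg M ls₁ = dg N ls₂`; the lists of the lengths are equal (same number of lists). Let `p s`, `q s` be the entries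
of `ls₁.flatten`, `ls₂.flatten`; `p s = p s' ↔ q s = q s'`, so there is `e` with `e (p s) = q s`, injective on the entries;
it embeds, and maps `ls₁` to `ls₂` list by list. (←) The two sets in the definitions of `tau` are equal: `ls₁ ↦ ls₁.map (map e)`
(with `dg N (ls₁.map (List.map e)) = dg M ls₁`; `pt` has only values in the list as `ls.flatten ≠ []`), and conversely with an inverse of `e`
on the entries. -/
def S_TAU : Prop :=
  ∀ (a : ℕ → ℕ) (K : ℕ → Type) [∀ i, MeasurableSpace (K i)] [∀ i, StandardBorelSpace (K i)]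
    (M N : XS a K ℕ) (ls ls' : List (List ℕ)), ls ≠ [] → ls.length = ls'.length →
    (∀ l ∈ ls, l ≠ []) → (∀ l ∈ ls', l ≠ []) →
    (tau M ls = tau N ls' ↔ ∃ e : ℕ → ℕ, Emb M N e {p | ∃ l ∈ ls, p ∈ l} ∧
      List.Forall₂ (fun l l' => (l.map e).Perm l') ls ls')

/-- MTA (60 lines, no hypotheses). Measurability of `tau`.

Proof. There are finitely many `ls'` with `Forall₂ Perm ls' ls`; for each of them `M ↦ dg M ls'` is measurable. -/
def S_MTA : Prop :=
  ∀ (a : ℕ → ℕ) (K : ℕ → Type) [∀ i, MeasurableSpace (K i)] [∀ i, StandardBorelSpace (K i)]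
    (ls : List (List ℕ)), Measurable fun M : XS a K ℕ => tau M ls

/-- GDL (60 lines, no hypotheses). Goodness is local and Borel. (Enumerate `b` by `u` and `b.image e` by `e ∘ u`.) -/
def S_GDL : Prop :=
  ∀ (a : ℕ → ℕ) (K : ℕ → Type) (𝓖 : FamG a K),
    (∀ (M N : XS a K ℕ) (e : ℕ → ℕ) (b : Finset ℕ), Emb N M e b →
      (Gd 𝓖 M (b.image e) ↔ Gd 𝓖 N b)) ∧
    ∀ [∀ i, MeasurableSpace (K i)], (∀ n, MeasurableSet (𝓖 n)) →
      ∀ b : Finset ℕ, MeasurableSet {M : XS a K ℕ | Gd 𝓖 M b}

/-- CEX (150 lines, no hypotheses). Existence of presentations.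

Proof. For each `y` let `b` be a good set with `y ∈ b` of least cardinality; for a good `c ∋ y` the set `b ∩ c` is good, so
`b ⊆ c`; thus `Pr b y`, and `b.card ≤ n`. For each `x` choose a prime `b ∋ x` (`Pr b y` for some `y`) of greatest
cardinality: it is maximal (under inclusion) among the prime sets. Let `𝓜` be the set of the maximal prime sets, a
countable set of finite sets with union `ℕ`, hence infinite; take a bijection `ℕ ≃ 𝓜` and `ρ i = encode` of the list
`Finset.toList` (or `sort`) of the `i`-th member. -/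
def S_CEX : Prop :=
  ∀ (a : ℕ → ℕ) (K : ℕ → Type) (𝓖 : FamG a K) (M : XS a K ℕ), Fine 𝓖 M → ∃ ρ, Pres 𝓖 M ρ

/-- UNI (120 lines), hypotheses `S_TAU`, `S_GDL`. The code is unique up to isomorphism.

Proof. Let `σ` be an isomorphism of `M` and `N`. By GDL it maps good sets to good sets, prime sets to prime sets. For each `i` the
image of `b_i = lst (ρ i)` is contained in some `b'_j` (`j` such that `σ y ∈ b'_j`, `y` as in `prime`), and `b'_j` is contained in the image
of some `b_k`; so `b_i ⊆ b_k`, `i = k` and `σ(b_i) = b'_j`. Let `π i = j`; `π` is bijective (`anti`, and the same for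
`σ⁻¹`). `(lst (ρ i)).map σ` is a permutation of `lst (ρ' (π i))` (both nodup, same elements). Apply TAU. -/
def S_UNI : Prop :=
  ∀ (a : ℕ → ℕ) (K : ℕ → Type) [∀ i, MeasurableSpace (K i)] [∀ i, StandardBorelSpace (K i)]
    (𝓖 : FamG a K) (M N : XS a K ℕ) (ρ ρ' : ℕ → ℕ), Pres 𝓖 M ρ → Pres 𝓖 N ρ' → XIso M N →
    XIso (cod M ρ) (cod N ρ')

/-- FTH (150 lines), hypothesis `S_TAU`. Structures with the same code are isomorphic.

Proof. For each `t` apply TAU to the blocks `0, ..., t` (`cod M ρ t (fun j => j) = cod N ρ' t (fun j => j)`): there is `e t` which embeds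
the union of the blocks `b_0, ..., b_t` of `M` in `N` and maps `b_i` onto `b'_i` for `i ≤ t`. Let `U` be a nonprincipal ultrafilter
on `ℕ` (`Filter.hyperfilter ℕ`). For `x ∈ b_i` the values `e t x`, `t ≥ i`, are in the finite set `b'_i`; let
`e x` be the constant value for `U`-almost all `t`. Then `e` preserves all functions and is injective (each condition is about finitely
many points) and onto: for `y ∈ b'_i` and `t ≥ i` there is `x ∈ b_i` with `e t x = y`, and one `x` does for `U`-almost all `t`. -/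
def S_FTH : Prop :=
  ∀ (a : ℕ → ℕ) (K : ℕ → Type) [∀ i, MeasurableSpace (K i)] [∀ i, StandardBorelSpace (K i)]
    (𝓖 : FamG a K) (M N : XS a K ℕ) (ρ ρ' : ℕ → ℕ), Pres 𝓖 M ρ → Pres 𝓖 N ρ' →
    cod M ρ = cod N ρ' → XIso M N

/-- LIM (200 lines, no hypotheses). Direct limit.

Proof. Let `P t = {p | ∃ i ≤ t, p ∈ l t i}` and let `e t : P t → P (t + 1)` be as in the first hypothesis for `t`, `t + 1`. The points
of the limit are `W = {(s, p) | p ∈ P s, s = 0 ∨ p ∉ e (s - 1) '' P (s - 1)}`. For `t` let `H t` be the map of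
`{(s, p) ∈ W | s ≤ t}` to `P t`, `(s, p) ↦ e (t - 1) (... (e s p))`; it is a bijection onto `P t` (induction on `t`), and
`H (t + 1) = e t ∘ H t` on its domain. `W` is infinite by the second hypothesis, and countable: fix `τ : ℕ ≃ W`. Let
`N i x = M i (H t ∘ τ ∘ x)` for all large `t` (for instance the least `t` with all `(τ (x j)).1 ≤ t`), and `c i` = the list of the `τ⁻¹ (H i ⁻¹ q)`, `q ∈ l i i`.
For `t ≥ i` the list `(c i).map (H t ∘ τ)` is a permutation of `l t i` (induction on `t`). `h = H t ∘ τ`. A point `τ⁻¹ (s, p)` with `p ∈ l s i`,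
`i ≤ s`, is in `c i` because `(c i).map (H s ∘ τ)` is a permutation of `l s i` and `H s` is injective. -/
def S_LIM : Prop :=
  ∀ (a : ℕ → ℕ) (K : ℕ → Type) (M : XS a K ℕ) (l : ℕ → ℕ → List ℕ),
    (∀ t t', t ≤ t' → ∃ e : ℕ → ℕ, Emb M M e {p | ∃ i ≤ t, p ∈ l t i} ∧
      ∀ i ≤ t, ((l t i).map e).Perm (l t' i)) →
    (∀ n : ℕ, ∃ (t : ℕ) (s : Finset ℕ), n ≤ s.card ∧ ∀ p ∈ s, ∃ i ≤ t, p ∈ l t i) →
    ∃ (N : XS a K ℕ) (c : ℕ → List ℕ), (∀ x, ∃ i, x ∈ c i) ∧
      ∀ t, ∃ h : ℕ → ℕ, Emb N M h {p | ∃ i ≤ t, p ∈ c i} ∧ ∀ i ≤ t, ((c i).map h).Perm (l t i)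

/-- FIX (120 lines, no hypotheses). Fixing finitely many blocks.

Proof. Let `Q`, `R` be the unions of the `c i` and of the `b i`, `i ∈ I`. For `t ≥` all elements of `I` the map `h` for `t` restricts
to a bijection `Q → R`, so one bijection `θ : Q → R` occurs for infinitely many `t`. Extend `θ` to a permutation `π` of `ℕ` and let `N₁` be the copy of
`N` by `π`, `N₁ i x = N i (π⁻¹ ∘ x)`, `c₁ i = (c i).map π`. For given `t` choose `t' ≥ t` such that `θ` occurs for `t'`, and
`h₁ = h ∘ π⁻¹` with `h` for `t'`. -/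
def S_FIX : Prop :=
  ∀ (a : ℕ → ℕ) (K : ℕ → Type) (M N : XS a K ℕ) (c : ℕ → List ℕ) (l : ℕ → ℕ → List ℕ)
    (I : Finset ℕ) (b : ℕ → List ℕ), (∀ i ∈ I, ∀ t, l t i = b i) → (∀ x, ∃ i, x ∈ c i) →
    (∀ t, ∃ h : ℕ → ℕ, Emb N M h {p | ∃ i ≤ t, p ∈ c i} ∧ ∀ i ≤ t, ((c i).map h).Perm (l t i)) →
    ∃ (N₁ : XS a K ℕ) (c₁ : ℕ → List ℕ), (∀ x, ∃ i, x ∈ c₁ i) ∧ (∀ i ∈ I, (c₁ i).Perm (b i)) ∧
      ∀ t, ∃ (h : ℕ → ℕ) (t' : ℕ), t ≤ t' ∧ Emb N₁ M h {p | ∃ i ≤ t, p ∈ c₁ i} ∧
        (∀ i ≤ t, ((c₁ i).map h).Perm (l t' i)) ∧ ∀ i ∈ I, ∀ p ∈ b i, h p = p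

/-- YNG (250 lines), hypotheses `S_TAU`, `S_GDL`, `S_LIM`, `S_FIX`. Structures younger than a code are codes.

Proof. Let `f` be larger than all elements of `F'`. For each `t` let `ε t` be as in `XYo` for `X = {0, ..., t + f}`; it fixes `F'`.
Let `l t i = lst (ρ (ε t i))`. For `t ≤ t'` the value of `N'` at `(0, ..., t)` is `tau` of the blocks `l t 0, ..., l t t` and also `tau` of the
`l t' 0, ..., l t' t`; TAU gives the first hypothesis of LIM. Second: `l t 0, ..., l t t` are the lists of `t + 1` different finite sets (`anti`), so their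
union has at least `log₂ (t + 1)` elements. For `i ∈ F'` is `l t i = lst (ρ i)` for all `t`. LIM and FIX (`I = F'`, `b i = lst (ρ i)`) give `N₁`, `c₁`. Let
`ρ' i = encode (c₁ i)`. Nodup: `(c₁ i).map h` is a permutation of a nodup list. Anti: if `c₁ i ⊆ c₁ j` then `l t' i ⊆ l t' j` for some `t'`, so
`ε t' i = ε t' j`, `i = j`. Good sets of `N₁` contained in the first blocks correspond by `h` to good sets of `M` (GDL). Prime: let `y'` be
the point of `c₁ i` with `h y' = y`, `y` as in `prime` for `ρ (ε t' i)`, `t = i`; for a good `c ∋ y'` of `N₁` take `t₂ ≥ i` such that `c` and `c₁ i` are contained in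
the first `t₂` blocks, with `h₂`, `t₂'`: as `y'` may correspond to another point of `l t₂' i`, choose `y'` such that it corresponds to a point `y`
which is as in `prime` for infinitely many `t` (finitely many points in `c₁ i`, so one does; and then use such a `t₂`). Code:
for `i : Fin (m + 1) → ℕ` let `t` be the maximum of the `i j`; by TAU for `h` the value of `cod N₁ ρ'` at `i` is `tau M` of the `l t' (i j)`, which is
`N' m i` by the choice of `ε t'`. GYo: given `X` let `t` be such that `X` and `F'` are contained in the first blocks, `X'` = the union of the first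
`t` blocks and the map `h`; `X'` is good because its image, a finite union of blocks of `M`, is good. `F ⊆ X'` as each point of `F` is in a block `b i`, `i ∈ F'`,
and `c₁ i` is a permutation of it. -/
def S_YNG : Prop :=
  ∀ (a : ℕ → ℕ) (K : ℕ → Type) [∀ i, MeasurableSpace (K i)] [∀ i, StandardBorelSpace (K i)]
    (𝓖 : FamG a K) (M : XS a K ℕ) (ρ : ℕ → ℕ),
    (∀ b c, Gd 𝓖 M b → Gd 𝓖 M c → Gd 𝓖 M (b ∪ c)) → Pres 𝓖 M ρ →
    ∀ (F F' : Finset ℕ), (∀ p ∈ F, ∃ i ∈ F', p ∈ lst (ρ i)) →
    ∀ N' : XS (fun m => m + 1) (fun _ => ℝ) ℕ, XYo F' (cod M ρ) N' →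
    ∃ (N : XS a K ℕ) (ρ' : ℕ → ℕ), Pres 𝓖 N ρ' ∧ cod N ρ' = N' ∧ GYo 𝓖 F M N

/-- MPR (100 lines), hypotheses `S_MTA`, `S_GDL`. Measurability of presentations and codes.

Proof. `Pres` is a countable Boolean combination of the conditions `Gd 𝓖 M c` (`c` a fixed finite set) and of conditions on
finitely many coordinates of `ρ`; for the second claim divide according to the values `ρ (i j)`. -/
def S_MPR : Prop :=
  ∀ (a : ℕ → ℕ) (K : ℕ → Type) [∀ i, MeasurableSpace (K i)] [∀ i, StandardBorelSpace (K i)]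
    (𝓖 : FamG a K), (∀ n, MeasurableSet (𝓖 n)) →
    MeasurableSet {z : XS a K ℕ × (ℕ → ℕ) | Pres 𝓖 z.1 z.2} ∧
    Measurable fun z : XS a K ℕ × (ℕ → ℕ) => cod z.1 z.2

/-- GBT (assembly, helper71), hypotheses CEX, UNI, FTH, YNG, MPR. -/
def S_GBT : Prop :=
  ∀ (a : ℕ → ℕ) (K : ℕ → Type) [∀ i, TopologicalSpace (K i)] [∀ i, PolishSpace (K i)]
    [∀ i, MeasurableSpace (K i)] [∀ i, BorelSpace (K i)]
    (𝓖 : FamG a K), (∀ n, MeasurableSet (𝓖 n)) → ∀ B : Set (XS a K ℕ), AnalyticSet B →
    (∀ M ∈ B, ∀ N, XIso M N → N ∈ B) → (∀ M ∈ B, Fine 𝓖 M) →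
    (∀ M ∈ B, ∃ F : Finset ℕ, ∀ N, GYo 𝓖 F M N → N ∈ B) → XDich B

end Pool.Agent.L7h71.GB
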