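import Pool.Agent.L7h71.GB.Stm
import Pool.Agent.L7h71.UN.Fo
import Pool.Agent.W889.FO.St0
import Pool.Agent.R617.VT.Trans

set_option autoImplicit false

/-!
# Project GB, second part: first-order theories
-/

namespace Pool.Agent.L7h71.GB

open Set Function MeasureTheory FirstOrder FirstOrder.Language
open Pool.Agent.H533R2.VO (RS RIso Dich)
open Pool.Agent.L7h71.UN (IsEU)
open Pool.Agent.W889.FO (VaughtF)
open Pool.Agent.W889.FO.St0 (RF LF gr W D)
open Pool.Agent.R617.VT (ar dc)

/-- Formulas which consist of universal quantifiers in front of an existential formula. -/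
inductive IsUE {L : FirstOrder.Language.{0, 0}} : ∀ {n : ℕ}, L.BoundedFormula Empty n → Prop
  | of_isExistential {n : ℕ} {φ : L.BoundedFormula Empty n} (h : φ.IsExistential) : IsUE φ
  | all {n : ℕ} {φ : L.BoundedFormula Empty (n + 1)} (h : IsUE φ) : IsUE φ.all

/-- The finite set `b` is the set of points of a substructure of `S` which is a model of `T`. -/
def SubM {L : FirstOrder.Language.{0, 0}} (T : L.Theory) (S : L.Structure ℕ) (b : Finset ℕ) : Prop :=
  ∃ A : @Substructure L ℕ S, (A : Set ℕ) = b ∧
    @Theory.Model L A (@Substructure.inducedStructure L ℕ S A) T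

/-- In `S` unions and nonempty intersections of finite submodels (models of `T`) are submodels, and each
point lies in a submodel with at most `n` points. -/
structure LocS {L : FirstOrder.Language.{0, 0}} (T : L.Theory) (S : L.Structure ℕ) : Prop where
  union : ∀ b c, SubM T S b → SubM T S c → SubM T S (b ∪ c)
  inter : ∀ b c, SubM T S b → SubM T S c → (b ∩ c).Nonempty → SubM T S (b ∩ c)
  bdd : ∃ n : ℕ, ∀ x, ∃ b, SubM T S b ∧ x ∈ b ∧ b.card ≤ n

/-- `e` preserves functions and relations on the set `b` and is injective there. -/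
structure EmbS {L : FirstOrder.Language.{0, 0}} (S' S : L.Structure ℕ) (b : Finset ℕ) (e : ℕ → ℕ) :
    Prop where
  inj : InjOn e b
  fn : ∀ (n : ℕ) (F : L.Functions n) (v : Fin n → ℕ), (∀ j, v j ∈ b) →
    e (@Structure.funMap L ℕ S' n F v) = @Structure.funMap L ℕ S n F (e ∘ v)
  rel : ∀ (n : ℕ) (R : L.Relations n) (v : Fin n → ℕ), (∀ j, v j ∈ b) →
    (@Structure.RelMap L ℕ S n R (e ∘ v) ↔ @Structure.RelMap L ℕ S' n R v)

/-- FOE (120 lines, pure model theory, no hypotheses). Transfer of the theory.

Proof. `F` consists of the witnesses in `S` of the existential quantifiers of the finitely many sentences of `T₂` (as in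
`Pool.Agent.L7h71.UN.eu_theory`). Let `S'` be as in the hypothesis. A sentence `∀ x̄ θ`, `θ` existential, of `T₁`: for given `x̄` let `X`
contain them; the substructure of `S'` with the points `X'` is a model of `T₁`, so it satisfies `θ` at `x̄`, and so does `S'`
(`BoundedFormula.IsExistential.realize_embedding`, for `Substructure.subtype`). A sentence `∃ ū ∀ v̄ θ` of `T₂` (`θ` quantifier-free), with the witnesses `ū` in `F`: for given
`v̄` let `X` contain them, `A` the substructure of `S'` with the points `X'`; `e` restricted to `A` is an embedding of `A` in `S`; `S` satisfies the universal formula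
`∀ v̄ θ` at `ū = e ū`, hence `A` at `ū` (`BoundedFormula.IsUniversal.realize_embedding`), so `A` satisfies `θ` at `ū, v̄`, and so does `S'`
(`BoundedFormula.IsQF.realize_embedding`). -/
def S_FOE : Prop :=
  ∀ (L : FirstOrder.Language.{0, 0}) (T₁ T₂ : L.Theory), (∀ φ ∈ T₁, IsUE φ) → (∀ φ ∈ T₂, IsEU φ) →
    T₂.Finite → ∀ S : L.Structure ℕ, @Theory.Model L ℕ S (T₁ ∪ T₂) →
    ∃ F : Finset ℕ, ∀ S' : L.Structure ℕ,
      (∀ X : Finset ℕ, ∃ X' : Finset ℕ, X ⊆ X' ∧ F ⊆ X' ∧ SubM T₁ S' X' ∧
        ∃ e : ℕ → ℕ, (∀ p ∈ F, e p = p) ∧ EmbS S' S X' e) →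
      @Theory.Model L ℕ S' (T₁ ∪ T₂)

/-- FOM (200 lines, no hypotheses). Finite submodels as a Borel family of finite structures.

Proof. For a type `V` decode `s : ∀ i, (Fin (ar e i) → V) → Bool` as a structure for `LF L` on `V` as in `Pool.Agent.R617.VT.dc`; say that it is
functional if all `RF.fn F` are graphs of functions (as in `Pool.Agent.W889.FO.St0.W`), and let `DV s` be the decoded `L`-structure on `V` (as in
`Pool.Agent.W889.FO.St0.D`). `𝓖 n` is the set of the `s` on `V = Fin n` which are functional and such that `DV s` is a model of `T`. It is Borel: for fixed `n`, by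
induction on terms and formulas, the sets of the functional `s` with `t.realize v = b`, with `φ.Realize v xs` are Borel (quantifiers over the finite set
`Fin n`; the sentences of `L` are countable, see `countable_sentence` in `Pool.Agent.R617.VT.md_meas`). Second claim: for a functional structure `y` on `ℕ` and `u : Fin b.card → ℕ` injective with values in `b` (so with range
`b`) the structure induced on `b` is functional iff `b` is closed under the functions of `D (dc he y)`, and then `u` is an isomorphism of `DV _` with the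
substructure. Last claim: the graphs are total on `b`. -/
def S_FOM : Prop :=
  ∀ (L : FirstOrder.Language.{0, 0}), Countable L.Symbols → ∀ (T : L.Theory)
    (e : (Σ n, (LF L).Relations n) → ℕ) (he : Injective e),
    ∃ 𝓖 : FamG (ar e) (fun _ => Bool), (∀ n, MeasurableSet (𝓖 n)) ∧ ∀ y : RS (ar e),
      (W (dc he y) → ∀ b : Finset ℕ, Gd 𝓖 y b ↔ SubM T (D (dc he y)) b) ∧
      ∀ b : Finset ℕ, Gd 𝓖 y b → ∀ (n : ℕ) (F : L.Functions n) (v : Fin n → ℕ), (∀ j, v j ∈ b) →
        ∃ p ∈ b, gr (dc he y) F v p

/-- FOG (assembly, helper71), hypotheses GBT, FOE, FOM. -/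
def S_FOG : Prop :=
  ∀ (L : FirstOrder.Language.{0, 0}), Countable L.Symbols → ∀ (T₁ T₂ : L.Theory),
    (∀ φ ∈ T₁, IsUE φ) → (∀ φ ∈ T₂, IsEU φ) → T₂.Finite →
    (∀ S : L.Structure ℕ, @Theory.Model L ℕ S (T₁ ∪ T₂) → LocS T₁ S) → VaughtF L (T₁ ∪ T₂)

end Pool.Agent.L7h71.GB
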