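import Pool.Agent.L7h71.UA.Top

set_option autoImplicit false

/-!
# Project GB, third part: `σ`-compact invariant sets in spaces with an action of the group `Sym(ℕ)`, or of a
group in which (the image of) `Sym(ℕ)` has countable index

`Pool.Agent.L7h71.UA.Top.top` (file `Pool/Agent/L7h71/UA/Top.lean`) is the theorem for `F_σ` sets in compact
zero-dimensional spaces. (Its hypothesis `S_LRC` is `Pool.Agent.L7h71.UA.lrc`, file `UA/All.lean`; keep it as a
hypothesis.)
-/

namespace Pool.Agent.L7h71.GB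

open Set Function
open Pool.Agent.L7h66.UA (S_LRC)

/-- The setting: `φ : Sym(ℕ) → G` has an image of countable index, the action of `Sym(ℕ)` on `X` by `φ` is continuous
(topology of pointwise convergence) and `G` acts by continuous maps. -/
structure Act (G X : Type) [Group G] [MulAction G X] [TopologicalSpace X]
    (φ : Equiv.Perm ℕ →* G) : Prop where
  index : ∃ R : ℕ → G, ∀ g, ∃ (i : ℕ) (σ : Equiv.Perm ℕ), g = φ σ * R i
  cont : ∀ g : G, Continuous fun x : X => g • x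
  act : ∀ (σ : Equiv.Perm ℕ) (x : X) (U : Set X), IsOpen U → φ σ • x ∈ U →
    ∃ (F : Finset ℕ) (V : Set X), IsOpen V ∧ x ∈ V ∧
      ∀ τ : Equiv.Perm ℕ, (∀ n ∈ F, τ n = σ n) → ∀ y ∈ V, φ τ • y ∈ U

/-- TBA (80 lines, no hypotheses). Baire category: see the first half of the proof of
`Pool.Agent.L7h71.UA.Fsx.fsigma_loc` (the Polish space `P` of the pairs `(p, p⁻¹)`; the sets `{p | φ p • x ∈ C n}` are closed and
cover `P`, so there are `n`, `p₀` and a finite set `Z` such that `φ p • x ∈ C n` for all `p` which agree with `p₀` on `Z`; take `σ = p₀` and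
`m` larger than all elements of `p₀(Z)`). -/
def S_TBA : Prop :=
  ∀ (G X : Type) [Group G] [MulAction G X] [TopologicalSpace X] (φ : Equiv.Perm ℕ →* G),
    Act G X φ → ∀ C : ℕ → Set X, (∀ n, IsClosed (C n)) →
    ∀ x : X, (∀ σ, φ σ • x ∈ ⋃ n, C n) →
    ∃ (n m : ℕ) (σ : Equiv.Perm ℕ), ∀ τ : Equiv.Perm ℕ, (∀ i < m, τ i = i) → φ τ • φ σ • x ∈ C n

/-- TIN (120 lines, no hypotheses). The theorem `top` for the stabiliser `V m` of `0, ..., m - 1`, acting on the compact set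
`C' = {x | ∀ τ, (∀ i < m, τ i = i) → φ τ • x ∈ C}`.

Proof. Let `ι : Sym(ℕ) →* Sym(ℕ)`, `ι σ i = i` for `i < m` and `ι σ (m + i) = m + σ i`. `Sym(ℕ)` acts on the subtype `C'` by `φ (ι σ)`; the action is
continuous (`ContAct`). `C'` is closed in `C`, so compact. Apply `Pool.Agent.L7h71.UA.Top.top` to the space `C'` and `C n = univ`. A `τ` which
fixes all `i < m` is `ι σ` for some `σ`. -/
def S_TIN : Prop :=
  S_LRC → ∀ (G X : Type) [Group G] [MulAction G X] [TopologicalSpace X] [T2Space X]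
    [SecondCountableTopology X] [TotallyDisconnectedSpace X] (φ : Equiv.Perm ℕ →* G),
    Act G X φ → ∀ (C : Set X), IsCompact C → ∀ m : ℕ,
    (∃ D : Set X, D.Countable ∧ ∀ x, (∀ τ : Equiv.Perm ℕ, (∀ i < m, τ i = i) → φ τ • x ∈ C) →
      ∃ y ∈ D, ∃ τ : Equiv.Perm ℕ, φ τ • y = x) ∨
    (∃ f : (ℕ → Bool) → X, Continuous f ∧
      (∀ c, ∀ τ : Equiv.Perm ℕ, (∀ i < m, τ i = i) → φ τ • f c ∈ C) ∧
      ∀ c d, (∃ τ : Equiv.Perm ℕ, (∀ i < m, τ i = i) ∧ φ τ • f c = f d) → c = d)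

/-- TTH (150 lines, no hypotheses). Thinning out.

Proof. Let `E = {(c, d) | ∃ g : G, g • f c = f d}`. It is the union of the `E_i = {(c, d) | ∃ σ, φ σ • R i • f c = f d}`, and `E_i` is analytic: it is the
projection of the closed set of the `(c, d, p)`, `p ∈ P` (`P` the Polish space of the pairs `(p, p⁻¹)` as in
`Pool.Agent.L7h71.UA.Fsx.fsigma_loc`), `φ p • R i • f c = f d` (continuity of `(p, x) ↦ φ p • x`). For fixed `c` the set of the `d` with `(c, d) ∈ E` is countable: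
for fixed `i` and fixed values `σ⁻¹ 0, ..., σ⁻¹ (m - 1)` there is at most one `d` with `φ σ • R i • f c = f d`, because for
`σ, σ'` with the same values `σ' * σ⁻¹` fixes all `i < m` and maps `f d` to `f d'`. The rest is as in
`Pool/Agent/L7h66/UN/Perf0.lean` and `Pool/Agent/L7h66/UA/Pfx.lean` (`Pool.Agent.H566W.perfect_independent` or
`meagre_of_sections` and `mycielski'`). -/
def S_TTH : Prop :=
  ∀ (G X : Type) [Group G] [MulAction G X] [TopologicalSpace X] [T2Space X]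
    [SecondCountableTopology X] (φ : Equiv.Perm ℕ →* G), Act G X φ → ∀ m : ℕ,
    ∀ f : (ℕ → Bool) → X, Continuous f →
      (∀ c d, (∃ τ : Equiv.Perm ℕ, (∀ i < m, τ i = i) ∧ φ τ • f c = f d) → c = d) →
    ∃ h : (ℕ → Bool) → (ℕ → Bool), Continuous h ∧ ∀ c d, (∃ g : G, g • f (h c) = f (h d)) → c = d

/-- TP2 (assembly, helper71), hypotheses TBA, TIN, TTH. -/
def S_TP2 : Prop :=
  S_LRC → ∀ (G X : Type) [Group G] [MulAction G X] [TopologicalSpace X] [T2Space X]
    [SecondCountableTopology X] [TotallyDisconnectedSpace X] (φ : Equiv.Perm ℕ →* G),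
    Act G X φ → ∀ C : ℕ → Set X, (∀ n, IsCompact (C n)) →
    (∀ g : G, ∀ x ∈ ⋃ n, C n, g • x ∈ ⋃ n, C n) →
    (∃ D : Set X, D.Countable ∧ ∀ x ∈ ⋃ n, C n, ∃ y ∈ D, ∃ g : G, g • y = x) ∨
    (∃ f : (ℕ → Bool) → X, Continuous f ∧ (∀ c, f c ∈ ⋃ n, C n) ∧
      ∀ c d, (∃ g : G, g • f c = f d) → c = d)

end Pool.Agent.L7h71.GB
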