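import Pool.Agent.L7h71.GB.Stm3

set_option autoImplicit false

/-!
# Project GB: assembly of the theorem on `σ`-compact invariant sets
-/

namespace Pool.Agent.L7h71.GB

open Set Function
open Pool.Agent.L7h66.UA (S_LRC)

theorem s_TP2 (h1 : S_TBA) (h2 : S_TIN) (h3 : S_TTH) : S_TP2 := by
  intro hL G X _ _ _ _ _ _ φ hA C hC hinv
  by_cases hcase : ∀ n m : ℕ, ∃ D : Set X, D.Countable ∧
      ∀ x, (∀ τ : Equiv.Perm ℕ, (∀ i < m, τ i = i) → φ τ • x ∈ C n) →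
        ∃ y ∈ D, ∃ τ : Equiv.Perm ℕ, φ τ • y = x
  · left
    choose D hD hD' using hcase
    refine ⟨⋃ n, ⋃ m, D n m, countable_iUnion fun n => countable_iUnion fun m => hD n m,
      fun x hx => ?_⟩
    obtain ⟨n, m, σ, hσ⟩ := h1 G X φ hA C (fun n => (hC n).isClosed) x fun σ => hinv _ x hx
    obtain ⟨y, hy, τ, hτ⟩ := hD' n m (φ σ • x) hσ
    refine ⟨y, mem_iUnion.2 ⟨n, mem_iUnion.2 ⟨m, hy⟩⟩, (φ σ)⁻¹ * φ τ, ?_⟩
    rw [mul_smul, hτ, inv_smul_smul]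
  · right
    simp only [not_forall] at hcase
    obtain ⟨n, m, hnm⟩ := hcase
    rcases h2 hL G X φ hA (C n) (hC n) m with h | ⟨f, hf1, hf2, hf3⟩
    · exact absurd h hnm
    · obtain ⟨h, hh1, hh2⟩ := h3 G X φ hA m f hf1 hf3
      refine ⟨f ∘ h, hf1.comp hh1, fun c => mem_iUnion.2 ⟨n, ?_⟩, hh2⟩
      have h4 := hf2 (h c) 1 fun _ _ => rfl
      rwa [map_one, one_smul] at h4

end Pool.Agent.L7h71.GB
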